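import Mathlib

set_option autoImplicit false
set_option linter.unusedSectionVars false

namespace Pool.Agent.H.MP_bd3be7_nt

variable {M : Type*} [Field M] [CharZero M]

def Ball (R : Subring M) (T : M →+ ℚ) (t : ℚ) : Set M := {x | x ∈ R ∧ T (x * x) ≤ t}

structure Good (R : Subring M) (σ : M →+* M) (T : M →+ ℚ) : Prop where
  pos : ∀ x, 0 ≤ T (x * x)
  one : T 1 = 1
  hσ : ∀ x ∈ R, σ x ∈ R
  σσ : ∀ x, σ (σ x) = x
  Tσ : ∀ x, T (σ x) = T x
  F1 : ∀ x ∈ R, ∃ y ∈ R, x - σ x = 2 * y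
  F2 : ∀ z ∈ R, (σ z = z ∨ σ z = -z) → ∀ y ∈ R, z * z = 2 * y → ∀ u ∈ R, y * y = 2 * u →
    ∃ w ∈ R, z = 2 * w
  fin : ∀ t : ℚ, (Ball R T t).Finite
  cnt : ∀ s : ℕ, ∃ j : ℕ, (Ball R T (j * s)).ncard < 2 ^ j
  inf : ∀ F : Set M, F.Finite → F ⊆ R → ∃ x ∈ R, x ∉ Subfield.closure F

def Q (R : Subring M) : AddSubgroup M where
  carrier := {z | z ∈ R ∧ ∃ y ∈ R, z * z = 2 * y}
  zero_mem' := ⟨R.zero_mem, 0, R.zero_mem, by simp⟩
  add_mem' := by
    rintro a b ⟨ha, y, hy, e⟩ ⟨hb, y', hy', e'⟩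
    exact ⟨R.add_mem ha hb, y + y' + a * b, R.add_mem (R.add_mem hy hy') (R.mul_mem ha hb),
      by linear_combination e + e'⟩
  neg_mem' := by
    rintro a ⟨ha, y, hy, e⟩
    exact ⟨R.neg_mem ha, y, hy, by linear_combination e⟩

lemma mem_Q {R : Subring M} {z : M} : z ∈ Q R ↔ z ∈ R ∧ ∃ y ∈ R, z * z = 2 * y := Iff.rfl

lemma two_mem (R : Subring M) : (2 : M) ∈ R := by
  have := R.add_mem R.one_mem R.one_mem
  rwa [one_add_one_eq_two] at this

lemma Q_mul {R : Subring M} {z a : M} (hz : z ∈ Q R) (ha : a ∈ R) : a * z ∈ Q R := by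
  obtain ⟨hz, y, hy, e⟩ := hz
  exact ⟨R.mul_mem ha hz, a * a * y, R.mul_mem (R.mul_mem ha ha) hy, by linear_combination a * a * e⟩

lemma Q_two {R : Subring M} {a : M} (ha : a ∈ R) : 2 * a ∈ Q R :=
  ⟨R.mul_mem (two_mem R) ha, 2 * a * a, R.mul_mem (R.mul_mem (two_mem R) ha) ha, by ring⟩

noncomputable def gg (R : Subring M) (T : M →+ ℚ) (t : ℚ) : ℕ :=
  ((QuotientAddGroup.mk : M → M ⧸ Q R) '' Ball R T t).ncard

lemma T_nat (T : M →+ ℚ) (k : ℕ) (x : M) : T (k * x) = k * T x := by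
  rw [← nsmul_eq_mul, map_nsmul, nsmul_eq_mul]

lemma T_two (T : M →+ ℚ) (x : M) : T (2 * x) = 2 * T x := by simpa using T_nat T 2 x

lemma T_add (T : M →+ ℚ) (x y : M) :
    T ((x + y) * (x + y)) = T (x * x) + 2 * T (x * y) + T (y * y) := by
  rw [← T_two, ← map_add, ← map_add]; congr 1; ring

lemma T_sub (T : M →+ ℚ) (x y : M) :
    T ((x - y) * (x - y)) = T (x * x) - 2 * T (x * y) + T (y * y) := by
  rw [← T_two, ← map_sub, ← map_add]; congr 1; ring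

variable {R : Subring M} {σ : M →+* M} {T : M →+ ℚ}

lemma L1 (h : Good R σ T) (t : ℚ) : gg R T t * 10 ≤ (Ball R T (t + 324)).ncard := by
  have h1 : ∀ κ ∈ (QuotientAddGroup.mk : M → M ⧸ Q R) '' Ball R T t,
      ∃ c ∈ Ball R T t, (c : M ⧸ Q R) = κ ∧ T c ≤ 0 := by
    rintro _ ⟨c, hc, rfl⟩
    by_cases h0 : T c ≤ 0
    · exact ⟨c, hc, rfl, h0⟩
    · refine ⟨-c, ⟨R.neg_mem hc.1, by simpa using hc.2⟩, ?_, by rw [map_neg]; linarith⟩
      rw [QuotientAddGroup.eq]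
      simpa [two_mul] using Q_two hc.1
  choose! c hc using h1
  have h10 : ((Finset.range 10 : Finset ℕ) : Set ℕ).ncard = 10 := by simp
  rw [gg, ← h10, ← Set.ncard_prod]
  refine Set.ncard_le_ncard_of_injOn (fun p => c p.1 + 2 * (p.2 : M)) ?_ ?_ (h.fin _)
  · rintro ⟨κ, k⟩ ⟨hκ, hk⟩
    obtain ⟨⟨a1, a2⟩, -, a4⟩ := hc κ hκ
    have hk' : (k : ℚ) ≤ 9 := by
      have : k ≤ 9 := by simp at hk; omega
      exact_mod_cast this
    refine ⟨R.add_mem a1 (R.mul_mem (two_mem R) (natCast_mem R k)), ?_⟩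
    have e1 : T (c κ * (2 * k)) = 2 * k * T (c κ) := by
      rw [show c κ * (2 * k) = 2 * (k * c κ) by ring, T_two, T_nat]; ring
    have e2 : T (2 * k * (2 * k)) = 4 * k * k := by
      rw [show (2 * k * (2 * k) : M) = ((4 * k * k : ℕ) : M) * 1 by push_cast; ring, T_nat, h.one]
      push_cast; ring
    dsimp only
    rw [T_add, e1, e2]
    have : (0 : ℚ) ≤ k := by positivity
    nlinarith
  · rintro ⟨κ, k⟩ ⟨hκ, hk⟩ ⟨κ', k'⟩ ⟨hκ', hk'⟩ e
    dsimp only at e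
    have e1 : ∀ (x : M) (n : ℕ), ((x + 2 * (n : M) : M) : M ⧸ Q R) = x := fun x n => by
      rw [QuotientAddGroup.eq]
      simpa using (Q R).neg_mem (Q_two (natCast_mem R n))
    have : κ = κ' := by rw [← (hc κ hκ).2.1, ← (hc κ' hκ').2.1, ← e1 _ k, e, e1]
    subst this
    have e2 : (k : M) = k' := by
      have := add_left_cancel e
      simpa using this
    rw [Nat.cast_injective e2]

lemma L2 (h : Good R σ T) (t : ℚ) (x : M) :
    (Ball R T t).ncard ≤ 2 * {c | c ∈ Ball R T t ∧ T (x * c) ≤ 0}.ncard := by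
  set S := {c | c ∈ Ball R T t ∧ T (x * c) ≤ 0}
  have hS : S.Finite := (h.fin t).subset fun c hc => hc.1
  have : Ball R T t ⊆ S ∪ (fun c => -c) '' S := by
    intro c hc
    by_cases h0 : T (x * c) ≤ 0
    · exact Or.inl ⟨hc, h0⟩
    · refine Or.inr ⟨-c, ⟨⟨R.neg_mem hc.1, by simpa using hc.2⟩, ?_⟩, neg_neg c⟩
      rw [mul_neg, map_neg]; linarith
  have h1 := Set.ncard_le_ncard this (hS.union (hS.image _))
  have h2 := Set.ncard_union_le S ((fun c => -c) '' S)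
  have h3 := Set.ncard_image_le (f := fun c : M => -c) hS
  omega

lemma signs (T : M →+ ℚ) {k : ℕ} (b : Fin k → M) (hb : ∀ i, b i ∈ R) :
    ∃ γ ∈ R, T (γ * γ) ≤ ∑ i, T (b i * b i) ∧ ∃ y ∈ R, γ * γ - ∑ i, b i * b i = 2 * y := by
  induction k with
  | zero => exact ⟨0, R.zero_mem, by simp, 0, R.zero_mem, by simp⟩
  | succ k ih =>
    obtain ⟨γ, h1, h2, y, h3, h4⟩ := ih (fun i => b i.succ) fun i => hb _
    simp only [Fin.sum_univ_succ]
    by_cases h0 : T (γ * b 0) ≤ 0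
    · refine ⟨γ + b 0, R.add_mem h1 (hb 0), by rw [T_add]; linarith, y + γ * b 0,
        R.add_mem h3 (R.mul_mem h1 (hb 0)), by linear_combination h4⟩
    · refine ⟨γ - b 0, R.sub_mem h1 (hb 0), by rw [T_sub]; linarith, y - γ * b 0,
        R.sub_mem h3 (R.mul_mem h1 (hb 0)), by linear_combination h4⟩

lemma quad_fin (c t f ρ : M) (hρ : ρ ≠ 0) :
    {x : M | (x + c) * (x + c) - (t * x + f) * (t * x + f) = ρ}.Finite := by
  classical
  by_contra hi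
  have hi : Set.Infinite _ := hi
  obtain ⟨x, hx⟩ := hi.nonempty
  obtain ⟨y, hy, hy'⟩ := hi.exists_notMem_finset {x}
  obtain ⟨z, hz, hz'⟩ := hi.exists_notMem_finset {x, y}
  simp only [Finset.mem_insert, Finset.mem_singleton, not_or, Set.mem_ofPred_eq] at hx hy hz hy' hz'
  have e1 : (1 - t * t) * (x + y) + 2 * (c - t * f) = 0 := by
    apply mul_left_cancel₀ (sub_ne_zero.2 hy')
    linear_combination hy - hx
  have e2 : (1 - t * t) * (x + z) + 2 * (c - t * f) = 0 := by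
    apply mul_left_cancel₀ (sub_ne_zero.2 hz'.1)
    linear_combination hz - hx
  have e3 : 1 - t * t = 0 := by
    apply mul_left_cancel₀ (sub_ne_zero.2 hz'.2)
    linear_combination e2 - e1
  have e4 : c = t * f := by
    apply mul_left_cancel₀ (two_ne_zero (α := M))
    linear_combination e1 - (x + y) * e3
  subst e4
  exact hρ (by linear_combination -hx + (x * x - f * f) * e3)

lemma pair_fin (c c' ρ ρ' κ : M) (hc : c ≠ c') (hρ : ρ ≠ 0) :
    {x : M | ∃ b, (x + c) * (x + c) - b * b = ρ ∧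
      (x + c') * (x + c') - (b + κ) * (b + κ) = ρ'}.Finite := by
  have he : c' - c ≠ 0 := sub_ne_zero.2 hc.symm
  by_cases hκ : κ = 0
  · refine (Set.finite_singleton (((ρ' - ρ) / (c' - c) - (c + c')) / 2)).subset ?_
    rintro x ⟨b, e1, e2⟩
    subst hκ
    rw [Set.mem_singleton_iff]
    field_simp
    linear_combination e2 - e1
  · refine (quad_fin c ((c' - c) / κ) (((c' - c) * (c + c') + ρ - ρ' - κ * κ) / (2 * κ)) ρ hρ).subset ?_
    rintro x ⟨b, e1, e2⟩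
    have : b = (c' - c) / κ * x + ((c' - c) * (c + c') + ρ - ρ' - κ * κ) / (2 * κ) := by
      field_simp
      linear_combination e1 - e2
    rw [Set.mem_ofPred_eq, ← this, e1]

/-- configurations attached to a bounded datum -/
def Cf (R : Subring M) (σ : M →+* M) (c c' ρ ρ' κ κ' ε : M) : Set M :=
  {W | ∃ x ∈ R, ∃ b ∈ R, W ∈ R ∧ (x + c) * (x + c) - b * b = ρ ∧
    (x + c') * (x + c') - (b + W) * (b + W) = ρ' ∧ b - ε * σ b = 2 * κ ∧
    b + W - ε * σ (b + W) = 2 * κ'}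

lemma Cf_two (h : Good R σ T) {c c' ρ ρ' κ κ' ε μ : M} (hc : c ∈ R) (hc' : c' ∈ R)
    (hε : ε = 1 ∨ ε = -1) (hμ : μ ∈ R) (hρ : ρ - ρ' = 2 * μ) {W W' : M}
    (hW : W ∈ Cf R σ c c' ρ ρ' κ κ' ε) (hW' : W' ∈ Cf R σ c c' ρ ρ' κ κ' ε) :
    ∃ w ∈ R, W - W' = 2 * w := by
  obtain ⟨x, hx, b, hb, hW, e1, e2, e3, e4⟩ := hW
  obtain ⟨x', hx', b', hb', hW', e1', e2', e3', e4'⟩ := hW'
  have he : c' - c ∈ R := R.sub_mem hc' hc
  have key : ∀ x ∈ R, ∀ b ∈ R, ∀ W ∈ R, (x + c) * (x + c) - b * b = ρ →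
      (x + c') * (x + c') - (b + W) * (b + W) = ρ' →
      (W - (c' - c)) * (W - (c' - c)) =
        2 * ((c' - c) * (x + c - b) + μ - (W - (c' - c)) * (c' - c + b)) := by
    intro x _ b _ W _ e1 e2
    linear_combination e1 - e2 + hρ
  have k1 := key x hx b hb W hW e1 e2
  have k2 := key x' hx' b' hb' W' hW' e1' e2'
  have hu : x + c - b ∈ R := R.sub_mem (R.add_mem hx hc) hb
  have hu' : x' + c - b' ∈ R := R.sub_mem (R.add_mem hx' hc) hb'
  have hy : W - (c' - c) ∈ R := R.sub_mem hW he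
  have hy' : W' - (c' - c) ∈ R := R.sub_mem hW' he
  have q1 : W - (c' - c) ∈ Q R := ⟨hy, _, R.sub_mem (R.add_mem (R.mul_mem he hu) hμ)
    (R.mul_mem hy (R.add_mem he hb)), k1⟩
  have q2 : W' - (c' - c) ∈ Q R := ⟨hy', _, R.sub_mem (R.add_mem (R.mul_mem he hu') hμ)
    (R.mul_mem hy' (R.add_mem he hb')), k2⟩
  have q3 : (x + c - b) + (x' + c - b') ∈ Q R := ⟨R.add_mem hu hu',
    (x + c - b) * (x' + c - b') + (x + c - b) * (x + c) - (x' + c - b') * b',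
    R.sub_mem (R.add_mem (R.mul_mem hu hu') (R.mul_mem hu (R.add_mem hx hc))) (R.mul_mem hu' hb'),
    by linear_combination e1' - e1⟩
  have q4 : (c' - c) * ((x + c - b) + (x' + c - b')) + 2 * μ - (c' - c + b) * (W - (c' - c)) -
      (c' - c + b') * (W' - (c' - c)) - (W' - (c' - c)) * (W - (c' - c)) ∈ Q R :=
    (Q R).sub_mem ((Q R).sub_mem ((Q R).sub_mem ((Q R).add_mem (Q_mul q3 he) (Q_two hμ))
      (Q_mul q1 (R.add_mem he hb))) (Q_mul q2 (R.add_mem he hb'))) (Q_mul q1 hy')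
  obtain ⟨a1, u, a2, a3⟩ := q4
  refine h.F2 _ (R.sub_mem hW hW') ?_ _ a1 (by linear_combination k1 + k2) u a2 a3
  have : W - W' - ε * σ (W - W') = 0 := by
    rw [map_add] at e4 e4'
    rw [map_sub]
    linear_combination e4 - e3 - e4' + e3'
  rcases hε with rfl | rfl
  · exact Or.inl (by linear_combination -this)
  · exact Or.inr (by linear_combination this)

lemma parts (h : Good R σ T) (K : Subfield M) {m τ : ℚ} (hm : ∀ z ∈ R, z ∉ K → m ≤ T (z * z))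
    {b : M} (hb : b ∈ R) (hbK : b ∉ K) (hbT : T (b * b) ≤ m + τ) :
    ∃ ε κ : M, (ε = 1 ∨ ε = -1) ∧ κ ∈ Ball R T τ ∧ b - ε * σ b = 2 * κ := by
  obtain ⟨y, hy, e⟩ := h.F1 b hb
  have hs : σ y = -y := by
    apply mul_left_cancel₀ (two_ne_zero (α := M))
    have := congrArg σ e
    rw [map_sub, h.σσ, map_mul, map_ofNat] at this
    linear_combination -this - e
  have hs' : σ (b - y) = b - y := by rw [map_sub, hs]; linear_combination -e
  have h0 : T ((b - y) * y) = 0 := by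
    have := h.Tσ ((b - y) * y)
    rw [map_mul, hs, hs', mul_neg, map_neg] at this
    linarith
  have h1 := T_add T (b - y) y
  rw [sub_add_cancel, h0] at h1
  by_cases hyK : y ∈ K
  · have := hm _ (R.sub_mem hb hy) fun h2 => hbK (by simpa using K.add_mem h2 hyK)
    exact ⟨1, y, Or.inl rfl, ⟨hy, by linarith⟩, by linear_combination e⟩
  · have := hm _ hy hyK
    exact ⟨-1, b - y, Or.inr rfl, ⟨R.sub_mem hb hy, by linarith⟩, by linear_combination -e⟩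

lemma halves (h : Good R σ T) (K : Subfield M) {m τ : ℚ} (hm : ∀ z ∈ R, z ∉ K → m ≤ T (z * z))
    {b b' W w : M} (hb : b ∈ R) (hbK : b ∉ K) (hbT : T (b * b) ≤ m + τ) (hbT' : T (b' * b') ≤ m + τ)
    (hW : W ∈ R) (hw : w ∈ R) (e : b' - b - W = 2 * w) :
    ∃ s s' : M, (s = 1 ∨ s = -1) ∧ s' * s' = 1 ∧ ∃ z ∈ Ball R T (τ + T (W * W)),
      b' = s' * b + (s * W + 2 * z) := by
  obtain ⟨s, hs, w', hw', e', h1⟩ : ∃ s : M, (s = 1 ∨ s = -1) ∧ ∃ w' ∈ R, b' - b - s * W = 2 * w' ∧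
      T ((b' - s * W) * (b' - s * W)) ≤ T (b' * b') + T (W * W) := by
    by_cases h0 : 0 ≤ T (b' * W)
    · exact ⟨1, Or.inl rfl, w, hw, by linear_combination e, by rw [one_mul, T_sub]; linarith⟩
    · refine ⟨-1, Or.inr rfl, w + W, R.add_mem hw hW, by linear_combination e, ?_⟩
      rw [neg_one_mul, sub_neg_eq_add, T_add]; linarith
  have h2 := T_add T (w' + b) w'
  have h3 := T_sub T (w' + b) w'
  rw [show w' + b + w' = b' - s * W by linear_combination -e'] at h2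
  rw [add_sub_cancel_left] at h3
  have h4 := h.pos W
  by_cases hK : w' ∈ K
  · have := hm _ (R.add_mem hw' hb) fun h2 => hbK (by simpa using K.sub_mem h2 hK)
    exact ⟨s, 1, hs, by ring, w', ⟨hw', by linarith⟩, by linear_combination e'⟩
  · have := hm _ hw' hK
    exact ⟨s, -1, hs, by ring, w' + b, ⟨R.add_mem hw' hb, by linarith⟩, by linear_combination e'⟩

lemma L3 (h : Good R σ T) {n : ℕ} {α : M} (hα : α ∈ R)
    (hn : ¬ ∃ b : Fin n → M, (∀ i, b i ∈ R) ∧ α = ∑ i, b i * b i)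
    (hX : ∀ X ∈ R, ∃ b : Fin (n + 1) → M, (∀ i, b i ∈ R) ∧ α + X * X = ∑ i, b i * b i) (t : ℚ) :
    (Ball R T t).ncard ≤ 2 * (2 * gg R T (t + T α) + 1) := by
  classical
  set τ := t + T α with hτ
  let Sρ : Set M := (fun b : Fin n → M => ∑ i, b i * b i - α) '' {b | ∀ i, b i ∈ Ball R T τ}
  have fρ : Sρ.Finite := (Set.Finite.pi' fun _ => h.fin τ).image _
  have hρ0 : ∀ ρ ∈ Sρ, ρ ≠ 0 := by
    rintro _ ⟨b, hb, rfl⟩ e
    exact hn ⟨b, fun i => (hb i).1, (sub_eq_zero.1 e).symm⟩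
  have hch : ∀ D : M × M × M × M × M × M × M, ∃ W,
      (Cf R σ D.1 D.2.1 D.2.2.1 D.2.2.2.1 D.2.2.2.2.1 D.2.2.2.2.2.1 D.2.2.2.2.2.2).Nonempty →
      W ∈ Cf R σ D.1 D.2.1 D.2.2.1 D.2.2.2.1 D.2.2.2.2.1 D.2.2.2.2.2.1 D.2.2.2.2.2.2 := fun D => by
    by_cases h0 : (Cf R σ D.1 D.2.1 D.2.2.1 D.2.2.2.1 D.2.2.2.2.1 D.2.2.2.2.2.1 D.2.2.2.2.2.2).Nonempty
    · exact ⟨h0.some, fun _ => h0.some_mem⟩
    · exact ⟨0, fun h1 => absurd h1 h0⟩
  choose W hW using hch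
  have f1 : ({1, -1} : Set M).Finite := Set.toFinite _
  let DS : Set (M × M × M × M × M × M × M) :=
    Ball R T t ×ˢ Ball R T t ×ˢ Sρ ×ˢ Sρ ×ˢ Ball R T τ ×ˢ Ball R T τ ×ˢ {1, -1}
  have fD : DS.Finite := (h.fin _).prod ((h.fin _).prod (fρ.prod (fρ.prod ((h.fin _).prod
    ((h.fin _).prod f1)))))
  let Sκ : Set M := ⋃ D ∈ DS, ⋃ s ∈ ({1, -1} : Set M),
    (fun z => s * W D + 2 * z) '' Ball R T (τ + T (W D * W D))
  have fκ : Sκ.Finite := fD.biUnion fun _ _ => f1.biUnion fun _ _ => (h.fin _).image _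
  let Z : Set M := ⋃ p ∈ Ball R T t ×ˢ Ball R T t ×ˢ Sρ ×ˢ Sρ ×ˢ Sκ, ⋃ _ : p.1 ≠ p.2.1,
    {x : M | ∃ b, (x + p.1) * (x + p.1) - b * b = p.2.2.1 ∧
      (x + p.2.1) * (x + p.2.1) - (b + p.2.2.2.2) * (b + p.2.2.2.2) = p.2.2.2.1}
  have fZ : Z.Finite := ((h.fin _).prod ((h.fin _).prod (fρ.prod (fρ.prod fκ)))).biUnion
    fun p hp => Set.finite_iUnion fun hne => pair_fin _ _ _ _ _ hne (hρ0 _ hp.2.2.1)
  obtain ⟨x0, hx0, hx0'⟩ := h.inf ((Z ∩ R) ∪ ({α} ∪ Ball R T t))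
    ((fZ.inter_of_left _).union ((Set.finite_singleton _).union (h.fin _))) (by
      rintro x (hx | rfl | hx)
      exacts [hx.2, hα, hx.1])
  set K := Subfield.closure ((Z ∩ R) ∪ ({α} ∪ Ball R T t)) with hK
  have kα : α ∈ K := Subfield.subset_closure (Or.inr (Or.inl rfl))
  have kc : ∀ c ∈ Ball R T t, c ∈ K := fun c hc => Subfield.subset_closure (Or.inr (Or.inr hc))
  obtain ⟨x, ⟨⟨hx, hx1⟩, hxK⟩, hmin⟩ := Set.exists_min_image (Ball R T (T (x0 * x0)) \ K)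
    (fun z => T (z * z)) ((h.fin _).subset Set.diff_subset) ⟨x0, ⟨hx0, le_rfl⟩, hx0'⟩
  have hm : ∀ z ∈ R, z ∉ K → T (x * x) ≤ T (z * z) := fun z hz hz' => by
    by_cases h0 : T (z * z) ≤ T (x0 * x0)
    · exact hmin z ⟨⟨hz, h0⟩, hz'⟩
    · linarith
  set S := {c | c ∈ Ball R T t ∧ T (x * c) ≤ 0}
  have fS : S.Finite := (h.fin t).subset fun c hc => hc.1
  let G := {c | c ∈ S ∧ (x + c) * (x + c) ∉ K}
  have hG : ∀ c ∈ G, ∃ b ρ γ ε κ : M, b ∈ R ∧ b ∉ K ∧ T (b * b) ≤ T (x * x) + τ ∧ ρ ∈ Sρ ∧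
      (x + c) * (x + c) - b * b = ρ ∧ γ ∈ Ball R T τ ∧ (∃ y ∈ R, γ * γ - (ρ + α) = 2 * y) ∧
      (ε = 1 ∨ ε = -1) ∧ κ ∈ Ball R T τ ∧ b - ε * σ b = 2 * κ := by
    rintro c ⟨⟨⟨hc, hc1⟩, hc2⟩, hc3⟩
    obtain ⟨b, hb, e⟩ := hX (x + c) (R.add_mem hx hc)
    obtain ⟨i, hi⟩ : ∃ i, b i ∉ K := by
      by_contra h0
      push Not at h0
      apply hc3
      rw [eq_sub_of_add_eq' e]
      exact K.sub_mem (K.sum_mem fun i _ => K.mul_mem (h0 i) (h0 i)) kα
    rw [Fin.sum_univ_succAbove _ i] at e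
    have e1 := congrArg T e
    rw [map_add, map_add, T_add, map_sum] at e1
    have h1 := hm _ (hb i) hi
    have h2 : 0 ≤ ∑ j, T (b (i.succAbove j) * b (i.succAbove j)) :=
      Finset.sum_nonneg fun j _ => h.pos _
    obtain ⟨γ, g1, g2, y, g3, g4⟩ := signs T (fun j => b (i.succAbove j)) fun j => hb _
    have h3 : T (b i * b i) ≤ T (x * x) + τ := by linarith
    obtain ⟨ε, κ, p1, p2, p3⟩ := parts h K hm (hb i) hi h3
    refine ⟨b i, _, γ, ε, κ, hb i, hi, h3, ⟨fun j => b (i.succAbove j), fun j => ⟨hb _, ?_⟩, rfl⟩,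
      by linear_combination e, ⟨g1, by linarith⟩, ⟨y, g3, by linear_combination g4⟩, p1, p2, p3⟩
    have := Finset.single_le_sum (f := fun j => T (b (i.succAbove j) * b (i.succAbove j)))
      (fun j _ => h.pos _) (Finset.mem_univ j)
    linarith
  choose! b ρ γ ε κ hG using hG
  have hinj : Set.InjOn (fun c => (ε c, (γ c : M ⧸ Q R))) G := by
    intro c hc c' hc' e
    by_contra hne
    obtain ⟨a1, a2, a3, a4, a5, a6, ⟨y, a7, a8⟩, a9, a10, a11⟩ := hG c hc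
    obtain ⟨b1, b2, b3, b4, b5, b6, ⟨y', b7, b8⟩, b9, b10, b11⟩ := hG c' hc'
    obtain ⟨e1, e2⟩ := Prod.mk.inj e
    obtain ⟨-, u, hu, e3⟩ := QuotientAddGroup.eq.1 e2
    have hμ : ρ c - ρ c' = 2 * (y' - y + u + γ c * γ c' - γ c' * γ c') := by
      linear_combination b8 - a8 + e3
    have hμ' : y' - y + u + γ c * γ c' - γ c' * γ c' ∈ R :=
      R.sub_mem (R.add_mem (R.add_mem (R.sub_mem b7 a7) hu) (R.mul_mem a6.1 b6.1))
        (R.mul_mem b6.1 b6.1)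
    have m1 : b c' - b c ∈ Cf R σ c c' (ρ c) (ρ c') (κ c) (κ c') (ε c) :=
      ⟨x, hx, b c, a1, R.sub_mem b1 a1, a5, by rw [add_sub_cancel]; exact b5, a11,
        by rw [add_sub_cancel, e1]; exact b11⟩
    have m2 := hW (c, c', ρ c, ρ c', κ c, κ c', ε c) ⟨_, m1⟩
    obtain ⟨w, hw, e4⟩ := Cf_two h hc.1.1.1 hc'.1.1.1 a9 hμ' hμ m1 m2
    obtain ⟨-, -, -, -, m3, -⟩ := id m2
    obtain ⟨s, s', hs, hs', z, hz, e5⟩ := halves h K hm a1 a2 a3 b3 m3 hw e4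
    refine hxK (Subfield.subset_closure (Or.inl ⟨?_, hx⟩))
    refine Set.mem_biUnion (x := (c, c', ρ c, ρ c', s * W (c, c', ρ c, ρ c', κ c, κ c', ε c) + 2 * z))
      ⟨hc.1.1, hc'.1.1, a4, b4, ?_⟩ (Set.mem_iUnion.2 ⟨hne, s' * b c, ?_, ?_⟩)
    · exact Set.mem_biUnion (x := (c, c', ρ c, ρ c', κ c, κ c', ε c))
        ⟨hc.1.1, hc'.1.1, a4, b4, a10, b10, a9⟩ (Set.mem_biUnion hs ⟨z, hz, rfl⟩)
    · dsimp only
      linear_combination a5 - b c * b c * hs'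
    · dsimp only
      rw [← e5]; exact b5
  have c1 : G.ncard ≤ 2 * gg R T τ := by
    have := Set.ncard_le_ncard_of_injOn (t := ({1, -1} : Set M) ×ˢ
      ((QuotientAddGroup.mk : M → M ⧸ Q R) '' Ball R T τ)) _ (fun c hc => by
        obtain ⟨-, -, -, -, -, a6, -, a9, -⟩ := hG c hc
        exact ⟨a9, _, a6, rfl⟩) hinj (f1.prod ((h.fin _).image _))
    rw [Set.ncard_prod] at this
    exact this.trans (Nat.mul_le_mul_right _ (by
      simpa using Set.ncard_insert_le (1 : M) {-1}))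
  have c2 : (S \ G).ncard ≤ 1 := by
    rw [Set.ncard_le_one (fS.subset Set.diff_subset)]
    intro c hc c' hc'
    by_contra hne
    have k1 : (x + c) * (x + c) ∈ K := by_contra fun h0 => hc.2 ⟨hc.1, h0⟩
    have k2 : (x + c') * (x + c') ∈ K := by_contra fun h0 => hc'.2 ⟨hc'.1, h0⟩
    have k3 := kc c hc.1.1
    have k4 := kc c' hc'.1.1
    apply hxK
    have hne' : c - c' ≠ 0 := sub_ne_zero.2 hne
    have : x = (((x + c) * (x + c) - (x + c') * (x + c')) / (c - c') - (c + c')) / 2 := by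
      field_simp; ring
    rw [this]
    exact K.div_mem (K.sub_mem (K.div_mem (K.sub_mem k1 k2) (K.sub_mem k3 k4)) (K.add_mem k3 k4))
      (two_mem K.toSubring)
  have c3 := Set.ncard_diff_add_ncard_of_subset (s := G) (t := S) (fun c hc => hc.1) fS
  have c4 := L2 h t x
  change _ ≤ 2 * S.ncard at c4
  omega

theorem main (h : Good R σ T) (n : ℕ) : ∃ m : ℕ, ∃ a : Fin m → M, (∀ i, a i ∈ R) ∧
    ¬ ∃ b : Fin n → M, (∀ i, b i ∈ R) ∧ ∑ i, a i * a i = ∑ i, b i * b i := by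
  induction n with
  | zero => exact ⟨1, fun _ => 1, fun _ => R.one_mem, by simp⟩
  | succ n ih =>
    obtain ⟨m, a, ha, hn⟩ := ih
    by_contra hc
    push Not at hc
    have hα : ∑ i, a i * a i ∈ R := R.sum_mem fun i _ => R.mul_mem (ha i) (ha i)
    have h3 := L3 h hα hn fun X hX => by
      obtain ⟨b, hb, e⟩ := hc (m + 1) (Fin.cons X a) fun i => Fin.cases hX ha i
      refine ⟨b, hb, ?_⟩
      rw [← e, Fin.sum_univ_succ, add_comm]; rfl
    obtain ⟨s, hs⟩ := exists_nat_ge (324 + T (∑ i, a i * a i))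
    have mono : ∀ {t t' : ℚ}, t ≤ t' → gg R T t ≤ gg R T t' := fun htt =>
      Set.ncard_le_ncard (Set.image_mono fun x hx => ⟨hx.1, hx.2.trans htt⟩) ((h.fin _).image _)
    have grow : ∀ j : ℕ, 2 ^ j ≤ gg R T (j * s) := by
      intro j
      induction j with
      | zero =>
        exact (Set.ncard_pos ((h.fin _).image _)).2 ⟨_, 0, ⟨R.zero_mem, by simp⟩, rfl⟩
      | succ j ih =>
        have h1 := L1 h (j * s)
        have h2 := h3 (j * s + 324)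
        have h4 := mono (show j * s + 324 + T (∑ i, a i * a i) ≤ ((j + 1 : ℕ) : ℚ) * s by
          push_cast; linarith)
        have := Nat.one_le_two_pow (n := j)
        rw [pow_succ]; omega
    obtain ⟨j, hj⟩ := h.cnt s
    exact absurd ((grow j).trans (Set.ncard_image_le (h.fin _))) (not_le.2 hj)

end Pool.Agent.H.MP_bd3be7_nt
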