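import Pool.Agent.H.MP_bd3be7_nt.A

set_option autoImplicit false
set_option linter.unusedSectionVars false
open scoped symmDiff

namespace Pool.Agent.H.MP_bd3be7_nt

abbrev Pr := {p : ℕ // p.Prime}

abbrev I := Finset Pr

noncomputable def Mq : IntermediateField ℚ ℝ :=
  IntermediateField.adjoin ℚ (Set.range fun n : ℕ => √(n : ℝ))

def dd (S : I) : ℕ := ∏ p ∈ S, p.1

noncomputable def sq (n : ℕ) : Mq := ⟨√n, IntermediateField.subset_adjoin _ _ ⟨n, rfl⟩⟩

lemma sq_mul (a b : ℕ) : sq (a * b) = sq a * sq b := Subtype.ext (by simp [sq])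

lemma sq_sq (n : ℕ) : sq n * sq n = n := Subtype.ext (by simp [sq])

lemma sq_self (n : ℕ) : sq (n * n) = n := by rw [sq_mul, sq_sq]

noncomputable def r (S : I) : Mq := sq (dd S)

lemma dd_pos (S : I) : 0 < dd S := Finset.prod_pos fun p _ => p.2.pos

lemma dd_mul (S T : I) : dd S * dd T = dd (S ∩ T) * dd (S ∩ T) * dd (S ∆ T) := by
  unfold dd
  have e1 := Finset.prod_inter_mul_prod_sdiff S T (fun p => p.1)
  have e2 := Finset.prod_inter_mul_prod_sdiff T S (fun p => p.1)
  rw [Finset.inter_comm] at e2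
  rw [symmDiff_def, Finset.sup_eq_union, Finset.prod_union disjoint_sdiff_sdiff, ← e1, ← e2]
  ring

lemma r_mul (S T : I) : r S * r T = dd (S ∩ T) * r (S ∆ T) := by
  rw [r, r, r, ← sq_mul, dd_mul, sq_mul, sq_self]

lemma r_sq (S : I) : r S * r S = dd S := sq_sq _

lemma r_empty : r ∅ = 1 := by simpa [r, dd] using sq_self 1

lemma r_ne (S : I) : r S ≠ 0 := fun h => by
  have := r_sq S
  rw [h, zero_mul] at this
  exact (dd_pos S).ne' (by exact_mod_cast this.symm)

lemma dd_img (S : I) : dd S = ∏ p ∈ S.image (fun p => p.1), p := by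
  rw [Finset.prod_image fun a _ b _ h => Subtype.ext h]; rfl

lemma dd_pf (S : I) : (dd S).primeFactors = S.image (fun p => p.1) := by
  rw [dd_img, Nat.primeFactors_prod]
  simp only [Finset.mem_image]
  rintro _ ⟨p, -, rfl⟩; exact p.2

lemma dd_inj : Function.Injective dd := fun S T h =>
  Finset.image_injective Subtype.val_injective (by rw [← dd_pf, h, dd_pf])

lemma dd_sf (S : I) : Squarefree (dd S) :=
  Finset.squarefree_prod_of_pairwise_isCoprime (fun p _ q _ h => by
    simpa [Function.onFun, Nat.coprime_iff_isRelPrime.symm] using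
      (Nat.coprime_primes p.2 q.2).2 fun e => h (Subtype.ext e)) fun p _ => p.2.squarefree

lemma rat_int {q : ℚ} {d w : ℤ} (hd : Squarefree d) (h : d * q ^ 2 = w) : ∃ z : ℤ, q = z := by
  have h4 : (q.den : ℤ) * q.den ∣ d * q.num ^ 2 := ⟨w, by
    have := q.num_div_den
    have h5 : (q.den : ℚ) ≠ 0 := by simp
    rw [div_eq_iff h5] at this
    apply Int.cast_injective (α := ℚ)
    push_cast
    rw [← h, this]; ring⟩
  have h5 : IsCoprime (q.den : ℤ) q.num := by
    rw [Int.isCoprime_iff_gcd_eq_one, Int.gcd_comm]; exact q.reduced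
  have h6 := hd _ ((h5.mul_left h5).pow_right.dvd_of_dvd_mul_right h4)
  exact ⟨q.num, (Rat.coe_int_num_of_den_eq_one (by simpa using Int.isUnit_iff_natAbs_eq.1 h6)).symm⟩

lemma sq_eq (n : ℕ) : ∃ (k : ℕ) (S : I), sq n = k * r S := by
  obtain ⟨a, b, rfl, ha⟩ := Nat.sq_mul_squarefree n
  refine ⟨b, a.primeFactors.subtype Nat.Prime, ?_⟩
  have : dd (a.primeFactors.subtype Nat.Prime) = a := by
    refine (Finset.prod_subtype_of_mem (fun p => p) fun p hp => Nat.prime_of_mem_primeFactors hp).trans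
      (Nat.prod_primeFactors_of_squarefree ha)
  rw [pow_two, sq_mul, sq_self, r, this]

lemma sq_int (n : ℕ) : IsIntegral ℤ (sq n) :=
  IsIntegral.of_pow two_pos (by rw [pow_two, sq_sq]; exact isIntegral_natCast _)

instance : Algebra.IsAlgebraic ℚ Mq :=
  IntermediateField.isAlgebraic_adjoin (by
    rintro _ ⟨n, rfl⟩
    exact IsIntegral.of_pow two_pos (by
      rw [Real.sq_sqrt (Nat.cast_nonneg n)]; exact isIntegral_natCast _))

noncomputable def e0 : Mq →ₐ[ℚ] ℂ := (Complex.ofRealAm.restrictScalars ℚ).comp Mq.val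

lemma flip (S : I) (hS : S ≠ ∅) : ∃ φ : Mq →ₐ[ℚ] ℂ, φ (r S) = -e0 (r S) := by
  have hi : IsIntegral ℚ (r S) := Algebra.IsIntegral.isIntegral _
  have h1 : r S ∉ (algebraMap ℚ Mq).range := by
    rintro ⟨q, hq⟩
    have e := r_sq S
    rw [← hq, ← map_mul, ← map_natCast (algebraMap ℚ Mq)] at e
    have e := (algebraMap ℚ Mq).injective e
    obtain ⟨z, rfl⟩ := rat_int (d := 1) (w := dd S) (q := q) squarefree_one (by push_cast; linarith)
    have e2 : z.natAbs * z.natAbs = dd S := by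
      rw [← Int.natAbs_mul]
      have : z * z = dd S := by exact_mod_cast e
      rw [this]; rfl
    have := Nat.isUnit_iff.1 (dd_sf S _ e2.dvd)
    rw [this] at e2
    exact hS (dd_inj (e2.symm.trans rfl))
  have h2 := (minpoly.two_le_natDegree_iff hi).2 h1
  have h3 : minpoly ℚ (r S) = Polynomial.X ^ 2 - Polynomial.C (dd S : ℚ) := by
    symm
    refine Polynomial.eq_of_monic_of_dvd_of_natDegree_le (minpoly.monic hi)
      (Polynomial.monic_X_pow_sub_C _ two_ne_zero) (minpoly.dvd _ _ ?_)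
      (by rwa [Polynomial.natDegree_X_pow_sub_C])
    simp [pow_two, r_sq]
  have : -e0 (r S) ∈ (minpoly ℚ (r S)).rootSet ℂ := by
    rw [Polynomial.mem_rootSet]
    refine ⟨minpoly.ne_zero hi, ?_⟩
    rw [h3]
    have : e0 (r S) ^ 2 = dd S := by rw [← map_pow, pow_two, r_sq, map_natCast]
    simp [this]
  rw [← Algebra.IsAlgebraic.range_eval_eq_rootSet_minpoly] at this
  exact this

lemma chi (φ : Mq →ₐ[ℚ] ℂ) (S : I) : ∃ c : ℚ, c * c = 1 ∧ φ (r S) = e0 (c • r S) := by
  have : φ (r S) * φ (r S) = e0 (r S) * e0 (r S) := by simp [← map_mul, r_sq]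
  rcases mul_self_eq_mul_self_iff.1 this with h | h
  · exact ⟨1, by simp, by simpa⟩
  · exact ⟨-1, by simp, by simpa⟩

lemma li : LinearIndependent ℚ r := by
  rw [linearIndependent_iff']
  intro s
  induction s using Finset.induction_on with
  | empty => simp
  | insert j s hj ih =>
    intro g hg
    have h1 : ∀ i ∈ s, g i = 0 := by
      intro i hi
      obtain ⟨φ, hφ⟩ := flip (i ∆ j) fun e => hj (symmDiff_eq_bot.1 e ▸ hi)
      choose c hc hc' using chi φ
      have h2 : ∑ k ∈ insert j s, (g k * c k) • r k = 0 := by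
        apply e0.toRingHom.injective
        have := congrArg φ hg
        simp only [map_sum, map_rat_smul, hc', map_zero] at this
        simpa only [AlgHom.toRingHom_eq_coe, RingHom.coe_coe, map_sum, mul_smul, map_rat_smul,
          map_zero] using this
      have h3 : c i * c j = -1 := by
        have := congrArg φ (r_mul i j)
        rw [map_mul, map_mul, hφ, hc', hc', map_natCast, ← map_natCast e0, mul_neg, ← map_mul e0,
          ← map_mul e0, ← r_mul, ← map_neg] at this
        have := e0.toRingHom.injective this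
        rw [smul_mul_smul_comm, ← neg_one_smul ℚ] at this
        exact smul_left_injective ℚ (mul_ne_zero (r_ne i) (r_ne j)) this
      have h4 := ih (fun k => g k * (c k - c j)) (by
        rw [Finset.sum_insert hj] at hg h2
        have : ∑ k ∈ s, (g k * (c k - c j)) • r k =
            ∑ k ∈ s, (g k * c k) • r k - c j • ∑ k ∈ s, g k • r k := by
          rw [Finset.smul_sum, ← Finset.sum_sub_distrib]
          exact Finset.sum_congr rfl fun k _ => by rw [smul_smul, ← sub_smul]; congr 1; ring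
        rw [this, eq_neg_of_add_eq_zero_right hg, eq_neg_of_add_eq_zero_right h2, smul_neg,
          smul_smul, mul_comm]
        simp) i hi
      refine (mul_eq_zero.1 h4).resolve_right fun e => ?_
      have := hc j
      rw [sub_eq_zero.1 e] at h3
      linarith
    intro i hi
    rcases Finset.mem_insert.1 hi with rfl | hi
    · rw [Finset.sum_insert hj, Finset.sum_eq_zero fun k hk => by rw [h1 k hk, zero_smul],
        add_zero] at hg
      exact (smul_eq_zero.1 hg).resolve_right (r_ne _)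
    · exact h1 i hi

lemma sp : ⊤ ≤ Submodule.span ℚ (Set.range r) := by
  let V : Subalgebra ℚ Mq := (Submodule.span ℚ (Set.range r)).toSubalgebra
    (Submodule.subset_span ⟨∅, r_empty⟩) fun x y hx hy => by
      have := Submodule.mul_mem_mul hx hy
      rw [Submodule.span_mul_span] at this
      refine Submodule.span_le.2 ?_ this
      rintro _ ⟨_, ⟨S, rfl⟩, _, ⟨T, rfl⟩, rfl⟩
      dsimp only
      rw [r_mul, ← nsmul_eq_mul]
      exact nsmul_mem (Submodule.subset_span (Set.mem_range_self _)) _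
  rintro ⟨x, hx⟩ -
  change _ ∈ V
  induction hx using IntermediateField.adjoin_induction with
  | mem x hx =>
    obtain ⟨n, rfl⟩ := hx
    obtain ⟨k, S, e⟩ := sq_eq n
    change sq n ∈ V
    rw [e]
    exact V.mul_mem (natCast_mem V k) (Submodule.subset_span ⟨_, rfl⟩)
  | algebraMap q => exact V.algebraMap_mem q
  | add x y hx hy h1 h2 => exact V.add_mem h1 h2
  | inv x hx h1 =>
    exact V.inv_mem_of_algebraic (x := ⟨_, h1⟩) (Algebra.IsAlgebraic.isAlgebraic _)
  | mul x y hx hy h1 h2 => exact V.mul_mem h1 h2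

noncomputable def Bs : Module.Basis I ℚ Mq := Module.Basis.mk li sp

lemma Bs_eq (S : I) : Bs S = r S := by simp [Bs]

lemma co_r (S T : I) : Bs.repr (r S) T = if S = T then 1 else 0 := by
  rw [← Bs_eq, Bs.repr_self, Finsupp.single_apply]

def sg (p : Pr) (S : I) : ℚ := if p ∈ S then -1 else 1

lemma sg_sq (p : Pr) (S : I) : sg p S * sg p S = 1 := by unfold sg; split_ifs <;> simp

noncomputable def sL (p : Pr) : Mq →ₗ[ℚ] Mq := Bs.constr ℚ fun S => sg p S • r S

lemma sL_r (p : Pr) (S : I) : sL p (r S) = sg p S • r S := by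
  rw [← Bs_eq, sL, Bs.constr_basis, Bs_eq]

noncomputable def sA (p : Pr) : Mq →ₐ[ℚ] Mq :=
  AlgHom.ofLinearMap (sL p) (by rw [← r_empty, sL_r]; simp [sg]) (by
    rw [LinearMap.map_mul_iff]
    refine Bs.ext fun S => Bs.ext fun T => ?_
    simp only [Bs_eq, LinearMap.compr₂_apply, LinearMap.mul_apply', LinearMap.compl₂_apply,
      LinearMap.comp_apply, sL_r, smul_mul_smul_comm]
    rw [r_mul, ← nsmul_eq_mul, map_nsmul, sL_r, smul_comm]
    congr 1
    by_cases h1 : p ∈ S <;> by_cases h2 : p ∈ T <;> simp [sg, Finset.mem_symmDiff, h1, h2])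

lemma sA_r (p : Pr) (S : I) : sA p (r S) = sg p S • r S := sL_r p S

lemma co_sA (p : Pr) (x : Mq) (S : I) : Bs.repr (sA p x) S = sg p S * Bs.repr x S := by
  have : Bs.coord S ∘ₗ sL p = sg p S • Bs.coord S := Bs.ext fun T => by
    simp only [Bs_eq, LinearMap.comp_apply, sL_r, map_smul, Module.Basis.coord_apply, co_r,
      LinearMap.smul_apply]
    split_ifs with h
    · rw [h]
    · simp
  exact LinearMap.congr_fun this x

noncomputable def Tr : Mq →+ ℚ := (Bs.coord ∅).toAddMonoidHom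

lemma Tr_r (x : Mq) (S : I) : Tr (x * r S) = dd S * Bs.repr x S := by
  have : Bs.coord ∅ ∘ₗ LinearMap.mulRight ℚ (r S) = (dd S : ℚ) • Bs.coord S := Bs.ext fun T => by
    simp only [Bs_eq, LinearMap.comp_apply, LinearMap.mulRight_apply, Module.Basis.coord_apply, co_r,
      LinearMap.smul_apply]
    rw [r_mul, ← nsmul_eq_mul, map_nsmul, Finsupp.smul_apply, co_r]
    by_cases h : T = S
    · subst h; simp
    · rw [if_neg h, if_neg (show ¬ T ∆ S = ∅ from fun e => h (symmDiff_eq_bot.1 e))]; simp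
  exact LinearMap.congr_fun this x

lemma expand (x : Mq) : x = ∑ S ∈ (Bs.repr x).support, Bs.repr x S • r S := by
  conv_lhs => rw [← Bs.linearCombination_repr x]
  simp [Finsupp.linearCombination_apply, Finsupp.sum, Bs_eq]

lemma Tr_sq (x : Mq) : Tr (x * x) = ∑ S ∈ (Bs.repr x).support, dd S * Bs.repr x S ^ 2 := by
  have : Tr (x * x) = Tr (x * ∑ S ∈ (Bs.repr x).support, Bs.repr x S • r S) := by rw [← expand]
  rw [this, Finset.mul_sum, map_sum]
  refine Finset.sum_congr rfl fun S _ => ?_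
  rw [mul_smul_comm]
  have := (Bs.coord ∅).map_smul (Bs.repr x S) (x * r S)
  refine this.trans ?_
  change _ * Tr _ = _
  rw [Tr_r]; ring

lemma Tr_pos (x : Mq) : 0 ≤ Tr (x * x) := by
  rw [Tr_sq]; positivity

lemma proj (Q S0 : I) {x : Mq} (hx : IsIntegral ℤ x) : ∃ y : Mq, IsIntegral ℤ y ∧ ∀ S,
    Bs.repr y S = if ∀ q ∈ Q, (q ∈ S ↔ q ∈ S0) then 2 ^ Q.card * Bs.repr x S else 0 := by
  induction Q using Finset.induction_on with
  | empty => exact ⟨x, hx, by simp⟩
  | insert q Q hq ih =>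
    obtain ⟨y, hy, h⟩ := ih
    have hy' : IsIntegral ℤ (sA q y) := hy.map ((sA q).restrictScalars ℤ)
    refine ⟨y + sg q S0 • sA q y, hy.add ?_, fun S => ?_⟩
    · unfold sg; split_ifs
      · simpa using hy'.neg
      · simpa using hy'
    · rw [map_add, map_smul, Finsupp.add_apply, Finsupp.smul_apply, co_sA, h,
        Finset.card_insert_of_notMem hq]
      simp only [Finset.forall_mem_insert]
      by_cases h0 : ∀ q ∈ Q, (q ∈ S ↔ q ∈ S0)
      · rw [if_pos h0]
        by_cases h3 : q ∈ S ↔ q ∈ S0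
        · rw [if_pos ⟨h3, h0⟩, show sg q S0 = sg q S by simp [sg, h3], smul_eq_mul, ← mul_assoc, sg_sq]
          ring
        · rw [if_neg fun e => h3 e.1]
          by_cases h1 : q ∈ S <;> by_cases h2 : q ∈ S0 <;> simp_all [sg]
      · rw [if_neg h0, if_neg fun e => h0 e.2]; simp

lemma one_int {c : ℚ} {S : I} (h : IsIntegral ℤ (c • r S)) : ∃ a : ℤ, c = a := by
  have h1 := h.mul h
  rw [smul_mul_smul_comm, r_sq, show (c * c) • ((dd S : ℕ) : Mq) = algebraMap ℚ Mq (dd S * c ^ 2) by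
    rw [Algebra.smul_def, map_mul, map_mul, map_pow, map_natCast]; ring,
    isIntegral_algebraMap_iff (algebraMap ℚ Mq).injective] at h1
  obtain ⟨w, hw⟩ := IsIntegrallyClosed.isIntegral_iff.1 h1
  exact rat_int (d := dd S) (w := w) (Int.squarefree_natCast.2 (dd_sf S)) (by simpa using hw.symm)

lemma int_comb {w : Mq} (h : ∀ S, ∃ a : ℤ, Bs.repr w S = a) : IsIntegral ℤ w := by
  rw [expand w]
  refine IsIntegral.sum _ fun S _ => ?_
  obtain ⟨a, ha⟩ := h S
  rw [ha, Int.cast_smul_eq_zsmul]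
  exact (sq_int _).zsmul a

lemma den0 {x : Mq} (hx : IsIntegral ℤ x) : ∃ j : ℕ, ∀ S, ∃ a : ℤ, 2 ^ j * Bs.repr x S = a := by
  refine ⟨((Bs.repr x).support.biUnion id).card, fun S0 => ?_⟩
  by_cases h0 : S0 ∈ (Bs.repr x).support
  · obtain ⟨y, hy, h⟩ := proj ((Bs.repr x).support.biUnion id) S0 hx
    refine one_int (S := S0) (by
      convert hy
      refine Bs.ext_elem fun S => ?_
      rw [h, map_smul, Finsupp.smul_apply, co_r]
      by_cases e : S0 = S
      · subst e; simp
      · rw [if_neg e]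
        split_ifs with h1
        · by_cases h2 : S ∈ (Bs.repr x).support
          · refine absurd (Finset.ext fun q => ⟨fun hq => ?_, fun hq => ?_⟩) e
            · exact (h1 q (Finset.mem_biUnion.2 ⟨S0, h0, hq⟩)).2 hq
            · exact (h1 q (Finset.mem_biUnion.2 ⟨S, h2, hq⟩)).1 hq
          · simp [Finsupp.notMem_support_iff.1 h2]
        · simp)
  · exact ⟨0, by simp [Finsupp.notMem_support_iff.1 h0]⟩

lemma fin_bd (s : Finset ℕ) (h0 : 0 ∉ s) :
    s.card.factorial ≤ ∏ x ∈ s, x ∧ s.card * s.card ≤ 2 * ∑ x ∈ s, x := by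
  induction s using Finset.induction_on_max with
  | empty => simp
  | insert a s ha ih =>
    have h1 : a ∉ s := fun h => lt_irrefl _ (ha a h)
    obtain ⟨i1, i2⟩ := ih fun h => h0 (Finset.mem_insert_of_mem h)
    have h2 : s.card + 1 ≤ a := by
      have := Finset.card_le_card (show insert 0 s ⊆ Finset.range a from fun x hx => by
        rcases Finset.mem_insert.1 hx with rfl | hx
        · exact Finset.mem_range.2 (Nat.pos_of_ne_zero fun e => h0 (e ▸ Finset.mem_insert_self _ _))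
        · exact Finset.mem_range.2 (ha x hx))
      rwa [Finset.card_insert_of_notMem fun h => h0 (Finset.mem_insert_of_mem h),
        Finset.card_range] at this
    rw [Finset.card_insert_of_notMem h1, Finset.prod_insert h1, Finset.sum_insert h1,
      Nat.factorial_succ]
    exact ⟨Nat.mul_le_mul h2 i1, by nlinarith⟩

lemma dd_ge (S : I) : S.card.factorial ≤ dd S := by
  have := (fin_bd (S.image fun p => p.1) (by
    simp only [Finset.mem_image, not_exists, not_and]
    exact fun p _ => p.2.ne_zero)).1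
  rwa [Finset.card_image_of_injective _ Subtype.val_injective, ← dd_img] at this

lemma den {x : Mq} (hx : IsIntegral ℤ x) : ∃ j : ℕ, (∀ S, ∃ a : ℤ, 2 ^ j * Bs.repr x S = a) ∧
    (j = 0 ∨ (j.factorial : ℚ) ≤ 4 ^ j * Tr (x * x)) := by
  classical
  have h0 := den0 hx
  refine ⟨Nat.find h0, Nat.find_spec h0, ?_⟩
  have h1 := Nat.find_spec h0
  have h2 := fun m => Nat.find_min h0 (m := m)
  generalize Nat.find h0 = j at h1 h2
  rcases j with _ | j
  · exact Or.inl rfl
  right
  have h3 := h2 j j.lt_succ_self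
  have hs : ∀ S, (¬ ∃ a : ℤ, 2 ^ j * Bs.repr x S = a) → S ∈ (Bs.repr x).support := fun S hS =>
    Finsupp.mem_support_iff.2 fun e => hS ⟨0, by simp [e]⟩
  obtain ⟨S0, m0, hmax⟩ := Finset.exists_max_image
    ((Bs.repr x).support.filter fun S => ¬ ∃ a : ℤ, 2 ^ j * Bs.repr x S = a) Finset.card (by
      obtain ⟨S, hS⟩ := not_forall.1 h3
      exact ⟨S, Finset.mem_filter.2 ⟨hs S hS, hS⟩⟩)
  obtain ⟨m1, m2⟩ := Finset.mem_filter.1 m0
  have h4 : j + 1 ≤ S0.card := by
    by_contra h4
    obtain ⟨k, hk⟩ := Nat.exists_eq_add_of_le (show S0.card ≤ j by omega)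
    obtain ⟨y, hy, h⟩ := proj S0 S0 hx
    have hw : IsIntegral ℤ ((2 ^ k : ℚ) • y - (2 ^ j * Bs.repr x S0) • r S0) := int_comb fun S => by
      rw [map_sub, map_smul, map_smul, Finsupp.sub_apply, Finsupp.smul_apply, Finsupp.smul_apply, h,
        co_r]
      by_cases e : S0 = S
      · subst e
        exact ⟨0, by simp; rw [hk]; ring⟩
      · rw [if_neg e]
        split_ifs with h5
        · by_contra h6
          have h7 : ¬ ∃ a : ℤ, 2 ^ j * Bs.repr x S = a := fun ⟨a, ha⟩ => h6 ⟨a, by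
            rw [← ha, hk]; simp; ring⟩
          exact e (Finset.eq_of_subset_of_card_le (fun q hq => (h5 q hq).2 hq)
            (hmax S (Finset.mem_filter.2 ⟨hs S h7, h7⟩)))
        · exact ⟨0, by simp⟩
    have hy' : IsIntegral ℤ ((2 ^ k : ℚ) • y) := by
      have := hy.nsmul (2 ^ k)
      rwa [← Nat.cast_smul_eq_nsmul ℚ, Nat.cast_pow, Nat.cast_ofNat] at this
    exact m2 (one_int (S := S0) (by simpa using hy'.sub hw))
  obtain ⟨a, ha⟩ := h1 S0
  have a0 : a ≠ 0 := by
    rintro rfl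
    exact Finsupp.mem_support_iff.1 m1 (by simpa using ha)
  have a1 : (1 : ℚ) ≤ a ^ 2 := by exact_mod_cast (one_le_sq_iff_one_le_abs a).2 (Int.one_le_abs a0)
  have h5 : (((j + 1).factorial : ℕ) : ℚ) ≤ dd S0 := by
    exact_mod_cast (Nat.factorial_le h4).trans (dd_ge S0)
  have h6 := Finset.single_le_sum (f := fun S => (dd S : ℚ) * Bs.repr x S ^ 2)
    (fun S _ => by positivity) m1
  rw [← Tr_sq] at h6
  calc (((j + 1).factorial : ℕ) : ℚ) ≤ dd S0 * a ^ 2 := h5.trans (le_mul_of_one_le_right (by positivity) a1)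
    _ = 4 ^ (j + 1) * (dd S0 * Bs.repr x S0 ^ 2) := by
      rw [← ha, show (4 : ℚ) = 2 ^ 2 by norm_num, ← pow_mul]; ring
    _ ≤ _ := by gcongr

lemma small_sets {α : Type*} [DecidableEq α] (G : Finset α) (t : ℕ) :
    (G.powerset.filter fun s => s.card ≤ t).card ≤ (G.card + 1) ^ t := by
  calc _ ≤ ((Finset.range (t + 1)).biUnion fun i => G.powersetCard i).card :=
        Finset.card_le_card fun s hs => by
          simp only [Finset.mem_filter, Finset.mem_powerset] at hs
          exact Finset.mem_biUnion.2 ⟨s.card, Finset.mem_range.2 (by omega),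
            Finset.mem_powersetCard.2 ⟨hs.1, rfl⟩⟩
    _ ≤ _ := Finset.card_biUnion_le
    _ ≤ _ := by
      rw [add_pow]
      refine Finset.sum_le_sum fun i hi => ?_
      rw [Finset.card_powersetCard, one_pow, mul_one]
      exact (Nat.choose_le_pow _ _).trans (Nat.le_mul_of_pos_right _
        (Nat.choose_pos (by simpa [Nat.lt_succ_iff] using hi)))

lemma cnt0 (J N : ℕ) : ∃ U : Finset Mq, U.card ≤ (N * N * (2 * (N * N) + 1) + 1) ^ (2 * N) ∧
    ∀ x : Mq, (∀ S, ∃ a : ℤ, 2 ^ J * Bs.repr x S = a) → 4 ^ J * Tr (x * x) ≤ N * N → x ∈ U := by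
  classical
  let G : Finset (ℕ × ℤ) := Finset.Icc 1 (N * N) ×ˢ Finset.Icc (-(N * N : ℕ) : ℤ) (N * N : ℕ)
  have hG : G.card = N * N * (2 * (N * N) + 1) := by
    simp only [G, Finset.card_product, Nat.card_Icc, Int.card_Icc]
    congr 1
    omega
  refine ⟨(G.powerset.filter fun s => s.card ≤ 2 * N).image
    fun s => ∑ p ∈ s, ((p.2 : ℚ) / 2 ^ J) • sq p.1,
    Finset.card_image_le.trans (hG ▸ small_sets G _), fun x h1 h2 => ?_⟩
  choose a ha using h1
  have hi : Function.Injective fun S => (dd S, a S) := fun S T e => dd_inj (Prod.mk.inj e).1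
  have h3 : ∑ S ∈ (Bs.repr x).support, (dd S : ℤ) * a S ^ 2 ≤ N * N := by
    have : ((∑ S ∈ (Bs.repr x).support, (dd S : ℤ) * a S ^ 2 : ℤ) : ℚ) = 4 ^ J * Tr (x * x) := by
      rw [Tr_sq, Finset.mul_sum]
      push_cast
      refine Finset.sum_congr rfl fun S _ => ?_
      rw [← ha, show (4 : ℚ) = 2 ^ 2 by norm_num, ← pow_mul]; ring
    rw [← this] at h2
    exact_mod_cast h2
  have h4 : ∀ S ∈ (Bs.repr x).support, 1 ≤ |a S| := fun S hS => Int.one_le_abs fun e =>
    Finsupp.mem_support_iff.1 hS (by simpa [e] using ha S)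
  refine Finset.mem_image.2 ⟨(Bs.repr x).support.image fun S => (dd S, a S),
    Finset.mem_filter.2 ⟨Finset.mem_powerset.2 ?_, ?_⟩, ?_⟩
  · intro p hp
    obtain ⟨S, hS, rfl⟩ := Finset.mem_image.1 hp
    have h5 := (Finset.single_le_sum (f := fun S => (dd S : ℤ) * a S ^ 2)
      (fun S _ => by positivity) hS).trans h3
    have h6 := h4 S hS
    have h7 : (1 : ℤ) ≤ dd S := by exact_mod_cast dd_pos S
    rw [← sq_abs] at h5
    have h8 : (dd S : ℤ) ≤ N * N :=
      (le_mul_of_one_le_right (by positivity) (by nlinarith)).trans h5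
    have h9 : |a S| ≤ N * N :=
      (le_trans (by nlinarith) (le_mul_of_one_le_left (by positivity) h7)).trans h5
    simp only [G, Finset.mem_product, Finset.mem_Icc]
    exact ⟨⟨dd_pos S, by exact_mod_cast h8⟩, by push_cast; exact abs_le.1 h9⟩
  · rw [Finset.card_image_of_injective _ hi]
    have h5 := (fin_bd ((Bs.repr x).support.image dd) (by
      simp only [Finset.mem_image, not_exists, not_and]
      exact fun S _ => (dd_pos S).ne')).2
    rw [Finset.card_image_of_injective _ dd_inj, Finset.sum_image fun S _ T _ e => dd_inj e] at h5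
    have h6 : ((∑ S ∈ (Bs.repr x).support, dd S : ℕ) : ℤ) ≤ N * N := by
      push_cast
      refine (Finset.sum_le_sum fun S hS => ?_).trans h3
      have := h4 S hS
      rw [← sq_abs]
      exact le_mul_of_one_le_right (by positivity) (by nlinarith)
    have h7 : ∑ S ∈ (Bs.repr x).support, dd S ≤ N * N := by exact_mod_cast h6
    nlinarith
  · rw [Finset.sum_image fun S _ T _ e => hi e]
    conv_rhs => rw [expand x]
    refine Finset.sum_congr rfl fun S _ => ?_
    rw [← ha]
    congr 1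
    field_simp

lemma fac (j : ℕ) : 64 ^ j ≤ 16 ^ 96 * j.factorial := by
  induction j with
  | zero => simp
  | succ j ih =>
    by_cases h : j < 64
    · exact (Nat.pow_le_pow_right (by norm_num) (show j + 1 ≤ 64 by omega)).trans
        ((show 64 ^ 64 ≤ 16 ^ 96 by norm_num).trans (Nat.le_mul_of_pos_right _ (Nat.factorial_pos _)))
    · rw [pow_succ, Nat.factorial_succ, mul_comm (j + 1), ← mul_assoc]
      exact Nat.mul_le_mul ih (by omega)

lemma cnt1 (u : ℕ) : ∃ U : Finset Mq, U.card ≤ 2 ^ (8 * (3 * u + 97) * 2 ^ (3 * u + 96)) ∧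
    ∀ x : Mq, IsIntegral ℤ x → Tr (x * x) ≤ 16 ^ u → x ∈ U := by
  obtain ⟨U, h1, h2⟩ := cnt0 (u + 96) (2 ^ (3 * u + 96))
  refine ⟨U, h1.trans ?_, fun x hx hT => ?_⟩
  · have h3 : 1 ≤ 2 ^ (3 * u + 96) := Nat.one_le_two_pow
    rw [show 8 * (3 * u + 97) * 2 ^ (3 * u + 96) = (3 * u + 96 + 1) * 4 * (2 * 2 ^ (3 * u + 96)) by ring,
      pow_mul 2, pow_mul 2, pow_succ 2 (3 * u + 96)]
    generalize 2 ^ (3 * u + 96) = N at h3 ⊢
    refine Nat.pow_le_pow_left ?_ _
    have : 1 ≤ N * N := Nat.mul_pos h3 h3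
    rw [show (N * 2) ^ 4 = 16 * ((N * N) * (N * N)) by ring]
    nlinarith
  · obtain ⟨j, j1, j2⟩ := den hx
    have j3 : j ≤ u + 96 := by
      rcases j2 with rfl | j2
      · omega
      have j4 : (64 : ℚ) ^ j ≤ 16 ^ 96 * j.factorial := by exact_mod_cast fac j
      have j5 : (4 : ℚ) ^ j * 16 ^ j ≤ 4 ^ j * 16 ^ (u + 96) :=
        calc (4 : ℚ) ^ j * 16 ^ j = 64 ^ j := by rw [← mul_pow]; norm_num
          _ ≤ 16 ^ 96 * (4 ^ j * 16 ^ u) := j4.trans (by gcongr; exact j2.trans (by gcongr))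
          _ = _ := by rw [pow_add]; ring
      exact (pow_le_pow_iff_right₀ (by norm_num)).1 (le_of_mul_le_mul_left j5 (by positivity))
    obtain ⟨k, hk⟩ := Nat.exists_eq_add_of_le j3
    refine h2 x (fun S => ?_) ?_
    · obtain ⟨a, ha⟩ := j1 S
      exact ⟨2 ^ k * a, by rw [hk]; push_cast; rw [← ha]; ring⟩
    · calc (4 : ℚ) ^ (u + 96) * Tr (x * x) ≤ 4 ^ (u + 96) * 16 ^ u := by gcongr
        _ = _ := by
          push_cast
          rw [show (4 : ℚ) = 2 ^ 2 by norm_num, show (16 : ℚ) = 2 ^ 4 by norm_num, ← pow_mul, ← pow_mul,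
            ← pow_add, ← pow_add]
          congr 1; ring

lemma cnt2 (s : ℕ) : ∃ u j : ℕ, 8 * (3 * u + 97) * 2 ^ (3 * u + 96) < j ∧ j * s ≤ 16 ^ u := by
  obtain ⟨c, hc⟩ : ∃ c, c = 2 ^ 96 := ⟨_, rfl⟩
  obtain ⟨v, hv⟩ : ∃ v, v = 1000 * (c + 1) * (s + 1) := ⟨_, rfl⟩
  obtain ⟨u, hu⟩ : ∃ u, u = v + v := ⟨_, rfl⟩
  refine ⟨u, 8 * (3 * u + 97) * 2 ^ (3 * u + 96) + 1, Nat.lt_succ_self _, ?_⟩
  have h1 : v < 2 ^ v := Nat.lt_two_pow_self
  have h2 : 1 ≤ 2 ^ (3 * u) := Nat.one_le_two_pow
  have h3 : 16 ^ u = 2 ^ v * 2 ^ v * 2 ^ (3 * u) := by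
    rw [← pow_add, ← hu, ← pow_add, show u + 3 * u = 4 * u by omega, pow_mul]; norm_num
  rw [h3, pow_add, ← hc]
  clear hc h3
  generalize 2 ^ (3 * u) = A at h2 ⊢
  have h4 : (8 * (3 * u + 97) * c + 1) * s ≤ v * v := by
    have h5 : 1 ≤ v := hv ▸ Nat.mul_pos (by omega) (by omega)
    calc _ ≤ (1000 * v * (c + 1)) * (s + 1) := Nat.mul_le_mul (by subst hu; nlinarith) (by omega)
      _ = _ := by nth_rewrite 3 [hv]; ring
  calc _ ≤ (8 * (3 * u + 97) * c + 1) * s * A := by nlinarith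
    _ ≤ _ := Nat.mul_le_mul_right _ (h4.trans (Nat.mul_le_mul h1.le h1.le))

end Pool.Agent.H.MP_bd3be7_nt
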