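import Pool.Agent.H.MP_bd3be7_nt.B

set_option autoImplicit false
set_option linter.unusedSectionVars false

namespace Pool.Agent.H.MP_bd3be7_nt

noncomputable def R0 : Subring Mq := Subring.closure {θ | ∃ c : ℤ, θ * θ = θ + c}

lemma R0_int {x : Mq} (hx : x ∈ R0) : IsIntegral ℤ x := by
  refine (Subring.closure_le (t := (integralClosure ℤ Mq).toSubring)).2 ?_ hx
  rintro θ ⟨c, hc⟩
  refine ⟨Polynomial.X ^ 2 - (Polynomial.X + Polynomial.C c), ?_, ?_⟩
  · monicity!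
  · rw [Polynomial.eval₂_sub, Polynomial.eval₂_add, Polynomial.eval₂_C]
    simp [pow_two, hc]

lemma R0_four {x : Mq} (hx : x ∈ R0) : ∃ y ∈ R0, x ^ 4 = x + 2 * y := by
  induction hx using Subring.closure_induction with
  | mem θ h =>
    have h' : θ ∈ R0 := Subring.subset_closure h
    obtain ⟨c, hc⟩ := h
    obtain ⟨k, hk⟩ := Int.even_mul_succ_self c
    have hk' : (c : Mq) * (c + 1) = k + k := by exact_mod_cast hk
    exact ⟨c * θ + k, R0.add_mem (R0.mul_mem (intCast_mem R0 c) h') (intCast_mem R0 k),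
      by linear_combination (θ * θ + θ + c + 1) * hc + hk'⟩
  | zero => exact ⟨0, R0.zero_mem, by simp⟩
  | one => exact ⟨0, R0.zero_mem, by simp⟩
  | add a b ha hb h1 h2 =>
    obtain ⟨y, hy, e⟩ := h1
    obtain ⟨y', hy', e'⟩ := h2
    refine ⟨y + y' + a * b * ((a + b) * (a + b) + (a + b) * (a + b) - a * b), ?_,
      by linear_combination e + e'⟩
    have := R0.mul_mem (R0.add_mem ha hb) (R0.add_mem ha hb)
    exact R0.add_mem (R0.add_mem hy hy') (R0.mul_mem (R0.mul_mem ha hb)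
      (R0.sub_mem (R0.add_mem this this) (R0.mul_mem ha hb)))
  | neg a ha h1 =>
    obtain ⟨y, hy, e⟩ := h1
    exact ⟨a + y, R0.add_mem ha hy, by linear_combination e⟩
  | mul a b ha hb h1 h2 =>
    obtain ⟨y, hy, e⟩ := h1
    obtain ⟨y', hy', e'⟩ := h2
    exact ⟨a * y' + y * b + y * y' + y * y', R0.add_mem (R0.add_mem (R0.add_mem (R0.mul_mem ha hy')
      (R0.mul_mem hy hb)) (R0.mul_mem hy hy')) (R0.mul_mem hy hy'), by rw [mul_pow, e, e']; ring⟩

lemma sq_R0 {n : ℕ} (h : n % 4 = 1) : sq n ∈ R0 := by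
  obtain ⟨k, rfl⟩ : ∃ k, n = 4 * k + 1 := ⟨n / 4, by omega⟩
  have e := sq_sq (4 * k + 1)
  push_cast at e
  have : (1 + sq (4 * k + 1)) / 2 ∈ R0 := Subring.subset_closure ⟨k, by
    push_cast; linear_combination e / 4⟩
  convert R0.sub_mem (R0.add_mem this this) R0.one_mem using 1
  ring

noncomputable def N0 : Submodule ℚ Mq := Submodule.span ℚ R0

lemma N0_den {w : Mq} (hw : w ∈ N0) : ∃ n : ℕ, n ≠ 0 ∧ n * w ∈ R0 := by
  induction hw using Submodule.span_induction with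
  | mem x h => exact ⟨1, one_ne_zero, by simpa⟩
  | zero => exact ⟨1, one_ne_zero, by simp⟩
  | add a b _ _ h1 h2 =>
    obtain ⟨n, hn, e⟩ := h1
    obtain ⟨m, hm, e'⟩ := h2
    refine ⟨n * m, mul_ne_zero hn hm, ?_⟩
    convert R0.add_mem (R0.mul_mem (natCast_mem R0 m) e) (R0.mul_mem (natCast_mem R0 n) e') using 1
    push_cast; ring
  | smul q a _ h1 =>
    obtain ⟨n, hn, e⟩ := h1
    refine ⟨q.den * n, mul_ne_zero q.den_nz hn, ?_⟩
    convert R0.mul_mem (intCast_mem R0 q.num) e using 1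
    have : ((q.num : ℚ) : Mq) = ((q * q.den : ℚ) : Mq) := by rw [Rat.mul_den_eq_num]
    rw [Rat.smul_def]
    push_cast at this ⊢
    rw [this]; ring

noncomputable def σ2 : Mq →ₐ[ℚ] Mq := sA ⟨2, Nat.prime_two⟩

lemma fix_dec {z : Mq} (hz : σ2 z = z) : ∃ α ∈ N0, ∃ β ∈ N0, z = α + β * (1 + sq 3) := by
  have : z ∈ N0 ⊔ N0.map (LinearMap.mulRight ℚ (1 + sq 3)) := by
    rw [expand z]
    refine Submodule.sum_mem _ fun S hS => Submodule.smul_mem _ _ ?_
    have h2 : (⟨2, Nat.prime_two⟩ : Pr) ∉ S := fun h => by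
      have := co_sA ⟨2, Nat.prime_two⟩ z S
      change Bs.repr (σ2 z) S = _ at this
      rw [hz, sg, if_pos h] at this
      exact Finsupp.mem_support_iff.1 hS (by linarith)
    have h3 : dd S % 2 = 1 := by
      by_contra h
      have : 2 ∈ (dd S).primeFactors :=
        Nat.mem_primeFactors.2 ⟨Nat.prime_two, by omega, (dd_pos S).ne'⟩
      rw [dd_pf] at this
      obtain ⟨p, hp, e⟩ := Finset.mem_image.1 this
      exact h2 (by convert hp; exact e.symm)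
    by_cases h4 : dd S % 4 = 1
    · exact Submodule.mem_sup_left (Submodule.subset_span (sq_R0 h4))
    · have h5 : (1 / 3 : ℚ) • sq (3 * dd S) ∈ N0 :=
        N0.smul_mem _ (Submodule.subset_span (sq_R0 (by omega)))
      refine Submodule.mem_sup.2 ⟨_, N0.neg_mem h5, _, ⟨_, h5, rfl⟩, ?_⟩
      have := sq_sq 3
      rw [LinearMap.mulRight_apply, sq_mul, Rat.smul_def, r]
      push_cast at this ⊢
      linear_combination sq (dd S) / 3 * this
  obtain ⟨α, h1, _, ⟨β, h2, rfl⟩, e⟩ := Submodule.mem_sup.1 this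
  exact ⟨α, h1, β, h2, e.symm⟩

lemma σ2_sq2 : σ2 (sq 2) = -sq 2 := by
  have := sA_r ⟨2, Nat.prime_two⟩ {⟨2, Nat.prime_two⟩}
  simpa [r, dd, sg, σ2] using this

lemma σ2_sq3 : σ2 (sq 3) = sq 3 := by
  have := sA_r ⟨2, Nat.prime_two⟩ {⟨3, Nat.prime_three⟩}
  simpa [r, dd, sg, σ2] using this

section Val
variable {Γ : Type*} [LinearOrderedCommGroupWithZero Γ] {v : Valuation Mq Γ}
  (hO : ∀ x, IsIntegral ℤ x → v x ≤ 1) (h2 : v 2 < 1)
include hO h2

lemma g_pos : 0 < v 2 := by simp [zero_lt_iff]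

lemma v_nat {n : ℕ} (hn : n ≠ 0) : ∃ k : ℕ, v n = v 2 ^ k := by
  obtain ⟨k, m, ⟨t, rfl⟩, rfl⟩ := Nat.exists_eq_two_pow_mul_odd hn
  refine ⟨k, ?_⟩
  push_cast
  rw [map_mul, map_pow, add_comm, v.map_one_add_of_lt, mul_one]
  rw [map_mul]
  exact mul_lt_one_of_lt_of_le h2 (hO _ (isIntegral_natCast _))

lemma v_R0 {x : Mq} (hx : x ∈ R0) (h0 : x ≠ 0) : ∃ j : ℤ, v x = v 2 ^ j := by
  obtain ⟨k, hk⟩ : ∃ k : ℕ, v 2 ^ k ≤ v x := by
    have ha : IsAlgebraic ℤ x⁻¹ :=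
      (IsFractionRing.isAlgebraic_iff ℤ ℚ Mq).2 (Algebra.IsAlgebraic.isAlgebraic _)
    obtain ⟨n, hn, h⟩ := ha.exists_integral_multiple
    obtain ⟨k, hk⟩ := v_nat hO h2 (Int.natAbs_ne_zero.2 hn)
    refine ⟨k, ?_⟩
    have := hO _ h
    rw [zsmul_eq_mul, map_mul, map_inv₀, mul_inv_le_iff₀ (by simpa [zero_lt_iff]), one_mul] at this
    rw [← hk, Nat.cast_natAbs]
    rcases abs_choice n with e | e <;> simpa [e]
  induction k generalizing x with
  | zero => exact ⟨0, le_antisymm (by simpa using hO _ (R0_int hx)) (by simpa using hk)⟩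
  | succ k ih =>
    rcases (hO _ (R0_int hx)).eq_or_lt with h | h
    · exact ⟨0, by simpa⟩
    obtain ⟨y, hy, e⟩ := R0_four hx
    have e1 : v x = v 2 * v y := by
      rw [← map_mul, ← v.map_neg (2 * y), show -(2 * y) = x * (1 - x ^ 3) by linear_combination e,
        map_mul, v.map_one_sub_of_lt, mul_one]
      rw [map_pow]
      exact pow_lt_one₀ zero_le h (by norm_num)
    obtain ⟨j, hj⟩ := ih hy (by rintro rfl; exact h0 (by simpa using e1)) (by
      rw [e1, pow_succ'] at hk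
      exact le_of_mul_le_mul_left hk (g_pos hO h2))
    exact ⟨j + 1, by rw [e1, hj, zpow_add_one₀ (g_pos hO h2).ne', mul_comm]⟩

lemma v_N0 {w : Mq} (hw : w ∈ N0) (h0 : w ≠ 0) : ∃ j : ℤ, v w = v 2 ^ j := by
  obtain ⟨n, hn, h⟩ := N0_den hw
  obtain ⟨j, hj⟩ := v_R0 hO h2 h (mul_ne_zero (Nat.cast_ne_zero.2 hn) h0)
  obtain ⟨k, hk⟩ := v_nat hO h2 hn
  refine ⟨j - k, ?_⟩
  have := (g_pos hO h2).ne'
  rw [zpow_sub₀ this, ← hj, map_mul, hk, zpow_natCast]
  field_simp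

lemma v_unit : v (2 + sq 3) = 1 := by
  have e := sq_sq 3
  have h3 : v (2 + sq 3) * v (2 - sq 3) = 1 := by
    rw [← map_mul, show (2 + sq 3) * (2 - sq 3) = 1 by push_cast at e; linear_combination -e, map_one]
  have i2 : IsIntegral ℤ (2 : Mq) := isIntegral_natCast 2
  refine le_antisymm (hO _ (i2.add (sq_int 3))) ?_
  rw [← h3]
  exact mul_le_of_le_one_right' (hO _ (i2.sub (sq_int 3)))

lemma v_pi : v (1 + sq 3) ^ 2 = v 2 := by
  have e := sq_sq 3
  rw [← map_pow, show (1 + sq 3) ^ 2 = 2 * (2 + sq 3) by push_cast at e; linear_combination e,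
    map_mul, v_unit hO h2, mul_one]

lemma z_inj {a b : ℤ} (h : v 2 ^ a = v 2 ^ b) : a = b :=
  (zpow_right_strictAnti₀ (g_pos hO h2) h2).injective h

lemma z_le {a b : ℤ} (h : v 2 ^ a ≤ v 2 ^ b) : b ≤ a :=
  (zpow_right_strictAnti₀ (g_pos hO h2) h2).le_iff_ge.1 h

lemma v_fix {z : Mq} (hz : σ2 z = z) (h0 : z ≠ 0) : ∃ k : ℤ, v z ^ 2 = v 2 ^ k := by
  obtain ⟨α, ha, β, hb, rfl⟩ := fix_dec hz
  have a1 : α ≠ 0 → ∃ k : ℤ, v α ^ 2 = v 2 ^ (2 * k) := fun h => by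
    obtain ⟨j, hj⟩ := v_N0 hO h2 ha h
    exact ⟨j, by rw [hj, mul_comm, zpow_mul, zpow_ofNat]⟩
  have a2 : β ≠ 0 → ∃ k : ℤ, v (β * (1 + sq 3)) ^ 2 = v 2 ^ (2 * k + 1) := fun h => by
    obtain ⟨j, hj⟩ := v_N0 hO h2 hb h
    exact ⟨j, by rw [map_mul, mul_pow, v_pi hO h2, hj, zpow_add_one₀ (g_pos hO h2).ne', mul_comm 2,
      zpow_mul, zpow_ofNat]⟩
  by_cases b0 : β = 0
  · subst b0
    obtain ⟨k, hk⟩ := a1 (by simpa using h0)
    exact ⟨_, by simpa using hk⟩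
  obtain ⟨l, hl⟩ := a2 b0
  by_cases a0 : α = 0
  · subst a0
    exact ⟨_, by simpa only [zero_add] using hl⟩
  obtain ⟨k, hk⟩ := a1 a0
  rw [v.map_add_of_distinct_val fun e => by
    have := z_inj hO h2 (hk.symm.trans (e ▸ hl)); omega]
  rcases max_choice (v α) (v (β * (1 + sq 3))) with e | e <;> rw [e]
  exacts [⟨_, hk⟩, ⟨_, hl⟩]

lemma v_sq2 : v (sq 2) ^ 2 = v 2 := by rw [← map_pow, pow_two, sq_sq]; rfl

lemma v_pure {z : Mq} (hz : σ2 z = z ∨ σ2 z = -z) (h0 : z ≠ 0) : ∃ k : ℤ, v z ^ 2 = v 2 ^ k := by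
  rcases hz with hz | hz
  · exact v_fix hO h2 hz h0
  have s0 : sq 2 ≠ 0 := fun e => by simpa [e] using sq_sq 2
  obtain ⟨k, hk⟩ := v_fix hO h2 (z := z * sq 2) (by rw [map_mul, hz, σ2_sq2]; ring) (mul_ne_zero h0 s0)
  refine ⟨k - 1, ?_⟩
  have := (g_pos hO h2).ne'
  rw [zpow_sub_one₀ this, ← hk, map_mul, mul_pow, v_sq2 hO h2]
  field_simp

lemma v_F2 {z u : Mq} (hz : σ2 z = z ∨ σ2 z = -z) (hu : IsIntegral ℤ u) (e : z ^ 4 = 2 ^ 3 * u) :
    v (z / 2) ≤ 1 := by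
  by_cases h0 : z = 0
  · simp [h0]
  obtain ⟨k, hk⟩ := v_pure hO h2 hz h0
  have h3 : v 2 ^ (k * 2) ≤ v 2 ^ (3 : ℤ) := by
    rw [zpow_mul, ← hk, zpow_ofNat, zpow_ofNat, ← pow_mul, ← map_pow, e, map_mul, map_pow]
    exact mul_le_of_le_one_right' (hO _ hu)
  have h4 := z_le hO h2 h3
  rw [map_div₀, div_le_one₀ (g_pos hO h2), ← pow_le_pow_iff_left₀ zero_le zero_le two_ne_zero, hk,
    ← zpow_ofNat]
  exact (zpow_right_strictAnti₀ (g_pos hO h2) h2).antitone (show (2 : ℤ) ≤ k by omega)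

lemma v_F1 {x : Mq} (hx : IsIntegral ℤ x) : v ((x - σ2 x) / 2) ≤ 1 := by
  have e2 := sq_sq 2
  have e3 := sq_sq 3
  push_cast at e2 e3
  obtain ⟨ω, hω⟩ : ∃ ω, ω = sq 2 * (1 + sq 3) / 2 := ⟨_, rfl⟩
  have w1 : ω * ω = 2 + sq 3 := by
    rw [hω]; linear_combination (1 + sq 3) ^ 2 / 4 * e2 + e3 / 2
  have w2 : σ2 ω = -ω := by
    rw [hω, map_div₀, map_mul, map_add, σ2_sq2, σ2_sq3, map_one, map_ofNat]; ring
  have w3 : v ω = 1 := by
    have := v_unit hO h2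
    rwa [← w1, map_mul, ← pow_two, pow_eq_one_iff_of_nonneg zero_le two_ne_zero] at this
  have w0 : ω ≠ 0 := fun e => by simp [e] at w3
  have w4 : v (ω - 1) ^ 4 = v 2 := by
    have h3 : (v (ω - 1) * v (ω - 1 + 2)) ^ 2 = v 2 := by
      rw [← map_mul, ← v_pi hO h2]; congr 2; linear_combination w1
    by_cases h : v 2 < v (ω - 1)
    · rw [v.map_add_eq_of_lt_left h] at h3
      rw [← h3, ← pow_two, ← pow_mul]
    · exfalso
      have h4 := not_lt.1 h
      have h5 := v.map_add_le h4 le_rfl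
      have h6 : v 2 ^ (1 : ℤ) ≤ v 2 ^ (4 : ℤ) := by
        rw [zpow_one, zpow_ofNat]
        calc v 2 = _ := h3.symm
          _ ≤ (v 2 * v 2) ^ 2 := by gcongr
          _ = _ := by rw [← pow_two, ← pow_mul]
      have := z_le hO h2 h6
      omega
  have ss : σ2 (σ2 x) = x := Bs.ext_elem fun S => by
    rw [σ2, co_sA, co_sA, ← mul_assoc, sg_sq, one_mul]
  obtain ⟨β, hβ⟩ : ∃ β, (x - σ2 x) / 2 = β * ω := ⟨_, (div_mul_cancel₀ _ w0).symm⟩
  have b1 : σ2 β = β := by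
    apply mul_right_cancel₀ w0
    have := congrArg σ2 hβ
    rw [map_div₀, map_sub, ss, map_mul, w2, map_ofNat] at this
    linear_combination this + hβ
  rw [hβ, map_mul, w3, mul_one]
  by_cases b0 : β = 0
  · simp [b0]
  obtain ⟨l, hl⟩ := v_fix hO h2 b1 b0
  have b2 : v (β * (ω - 1)) ^ 4 = v 2 ^ (l * 2 + 1) := by
    rw [map_mul, mul_pow, w4, zpow_add_one₀ (g_pos hO h2).ne', zpow_mul, ← hl, zpow_ofNat,
      ← pow_mul]
  have b3 : v (β * (ω - 1)) ≤ v x := by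
    by_cases a0 : x - β * (ω - 1) = 0
    · rw [sub_eq_zero.1 a0]
    obtain ⟨k, hk⟩ := v_fix hO h2 (by
      rw [map_sub, map_mul, map_sub, w2, b1, map_one]; linear_combination -2 * hβ) a0
    have := v.map_add_of_distinct_val (x := x - β * (ω - 1)) (y := β * (ω - 1)) fun e => by
      rw [← e, show 4 = 2 * 2 from rfl, pow_mul, hk, ← zpow_ofNat] at b2
      have := z_inj hO h2 ((zpow_mul (v 2) k 2).trans b2)
      omega
    rw [sub_add_cancel] at this
    rw [this]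
    exact le_max_right _ _
  have b4 : v 2 ^ (l * 2 + 1) ≤ v 2 ^ (0 : ℤ) := by
    rw [← b2, zpow_zero]
    exact pow_le_one₀ zero_le (b3.trans (hO _ hx))
  have b5 := z_le hO h2 b4
  rw [← pow_le_one_iff_of_nonneg zero_le two_ne_zero, hl, ← zpow_zero (v 2)]
  exact (zpow_right_strictAnti₀ (g_pos hO h2) h2).antitone (show (0 : ℤ) ≤ l by omega)

end Val

lemma half {w : Mq} (hw : IsIntegral ℤ w) (h : ∀ V : ValuationSubring Mq,
    (∀ x, IsIntegral ℤ x → V.valuation x ≤ 1) → V.valuation 2 < 1 → V.valuation (w / 2) ≤ 1) :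
    IsIntegral ℤ (w / 2) := by
  by_contra h0
  have : IsIntegrallyClosedIn (integralClosure ℤ Mq).toSubring Mq :=
    inferInstanceAs (IsIntegrallyClosedIn (integralClosure ℤ Mq) Mq)
  obtain ⟨V, h1, h2⟩ := Subring.exists_le_valuationSubring_of_isIntegrallyClosedIn
    (R := (integralClosure ℤ Mq).toSubring) h0
  have hO : ∀ x, IsIntegral ℤ x → V.valuation x ≤ 1 := fun x hx =>
    (V.valuation_le_one_iff x).2 (h1 hx)
  apply h2
  rw [← V.valuation_le_one_iff]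
  rcases (hO 2 (isIntegral_natCast 2)).eq_or_lt with e | e
  · rw [map_div₀, e, div_one]; exact hO w hw
  · exact h V hO e

theorem good (K : IntermediateField ℚ Mq) (hK : ∀ x ∈ K, σ2 x ∈ K) (hf : ¬ FiniteDimensional ℚ K) :
    Good ((integralClosure ℤ Mq).toSubring ⊓ K.toSubring) σ2.toRingHom Tr := by
  have hs : ∀ x, IsIntegral ℤ x → IsIntegral ℤ (σ2 x) := fun x hx => hx.map (σ2.restrictScalars ℤ)
  have k2 : (2 : Mq) ∈ K := two_mem K.toSubring
  have hB : ∀ (t : ℚ) (u : ℕ), t ≤ 16 ^ u → ∃ U : Finset Mq,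
      U.card ≤ 2 ^ (8 * (3 * u + 97) * 2 ^ (3 * u + 96)) ∧
      Ball ((integralClosure ℤ Mq).toSubring ⊓ K.toSubring) Tr t ⊆ U := fun t u h => by
    obtain ⟨U, h1, h2⟩ := cnt1 u
    exact ⟨U, h1, fun x hx => h2 x hx.1.1 (hx.2.trans h)⟩
  refine ⟨Tr_pos, ?_, fun x hx => ⟨hs x hx.1, hK x hx.2⟩, fun x => ?_, fun x => ?_, fun x hx => ?_,
    fun z hz hp y hy e u hu e' => ?_, fun t => ?_, fun s => ?_, fun F hF hF' => ?_⟩
  · rw [← r_empty]; exact (co_r _ _).trans (if_pos rfl)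
  · exact Bs.ext_elem fun S => by
      change Bs.repr (σ2 (σ2 x)) S = _
      rw [σ2, co_sA, co_sA, ← mul_assoc, sg_sq, one_mul]
  · exact (co_sA _ x ∅).trans (by simp [sg, Tr])
  · exact ⟨(x - σ2 x) / 2, ⟨half (IsIntegral.sub hx.1 (hs x hx.1)) fun V hO h2 => v_F1 hO h2 hx.1,
      K.div_mem (K.sub_mem hx.2 (hK x hx.2)) k2⟩, by change x - σ2 x = _; ring⟩
  · exact ⟨z / 2, ⟨half hz.1 fun V hO h2 => v_F2 hO h2 hp hu.1
      (by linear_combination (z * z + 2 * y) * e + 4 * e'), K.div_mem hz.2 k2⟩, by ring⟩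
  · obtain ⟨u, hu⟩ := pow_unbounded_of_one_lt t (show (1 : ℚ) < 16 by norm_num)
    obtain ⟨U, -, h⟩ := hB t u hu.le
    exact U.finite_toSet.subset h
  · obtain ⟨u, j, h1, h2⟩ := cnt2 s
    obtain ⟨U, h3, h4⟩ := hB (j * s) u (by exact_mod_cast h2)
    refine ⟨j, (Set.ncard_le_ncard h4 U.finite_toSet).trans_lt ?_⟩
    rw [Set.ncard_coe_finset]
    exact h3.trans_lt (Nat.pow_lt_pow_right (by norm_num) h1)
  · by_contra h
    push Not at h
    have : Finite F := hF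
    have fd : FiniteDimensional ℚ (IntermediateField.adjoin ℚ F) :=
      IntermediateField.finiteDimensional_adjoin fun x _ => Algebra.IsIntegral.isIntegral x
    have hle : K ≤ IntermediateField.adjoin ℚ F := fun x hx => by
      have ha : IsAlgebraic ℤ x :=
        (IsFractionRing.isAlgebraic_iff ℤ ℚ Mq).2 (Algebra.IsAlgebraic.isAlgebraic _)
      obtain ⟨n, hn, h1⟩ := ha.exists_integral_multiple
      have h2 : n • x ∈ IntermediateField.adjoin ℚ F :=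
        (Subfield.closure_le (t := (IntermediateField.adjoin ℚ F).toSubfield)).2
          (IntermediateField.subset_adjoin _ _) (h _ ⟨h1, zsmul_mem hx n⟩)
      have : x = n • x / n := by
        have : (n : Mq) ≠ 0 := Int.cast_ne_zero.2 hn
        rw [zsmul_eq_mul]; field_simp
      rw [this]
      exact div_mem h2 (intCast_mem _ n)
    exact hf (Module.Finite.of_injective (IntermediateField.inclusion hle).toLinearMap
      (IntermediateField.inclusion hle).toRingHom.injective)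

end Pool.Agent.H.MP_bd3be7_nt
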